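import Mathlib

/-!
# Expanded cliques with bounded matching number

We disprove the equality asked for in MP_f4e9fb_co (Q1).
-/

namespace Pool.Agent.Results.MP_f4e9fb_co.Disproof

open Finset

/-- `E` (a set of edges on the vertex set `V`) is an `r`-graph: each edge has exactly `r` vertices. -/
def IsUniform {V : Type} (r : ℕ) (E : Finset (Finset V)) : Prop :=
  ∀ e ∈ E, e.card = r

/-- The hypergraph `E` has a subhypergraph isomorphic to the hypergraph `H`
(`H` is given by its edges and has no isolated vertices): some injective map of the vertices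
sends every edge of `H` to an edge of `E`. -/
def Contains {V W : Type} (E : Finset (Finset V)) (H : Finset (Finset W)) : Prop :=
  ∃ φ : W ↪ V, ∀ e ∈ H, e.map φ ∈ E

/-- The pairs `i < j` of elements of `Fin q`, i.e. the edges of the complete graph `K_q`. -/
abbrev KPair (q : ℕ) : Type := {p : Fin q × Fin q // p.1 < p.2}

/-- The vertices of the expanded clique `H_q^r`: the `q` core vertices, and for each edge `p` of
`K_q` a set of `r - 2` new vertices `(p, 0), …, (p, r - 3)`. -/
abbrev HVert (q r : ℕ) : Type := Fin q ⊕ (KPair q × Fin (r - 2))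

/-- The edge of `H_q^r` belonging to the edge `p` of `K_q`. -/
def expandedEdge (q r : ℕ) (p : KPair q) : Finset (HVert q r) :=
  {Sum.inl p.1.1, Sum.inl p.1.2} ∪ Finset.univ.image (fun i : Fin (r - 2) => Sum.inr (p, i))

/-- The expanded clique `H_q^r`. -/
def expandedClique (q r : ℕ) : Finset (Finset (HVert q r)) :=
  Finset.univ.image (expandedEdge q r)

/-- The matching `M_m^r`: `m` pairwise disjoint `r`-sets. -/
def matchingGraph (m r : ℕ) : Finset (Finset (Fin m × Fin r)) :=
  Finset.univ.image (fun i : Fin m => Finset.univ.image (fun j : Fin r => (i, j)))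

open Classical in
/-- The `n`-vertex `r`-graphs containing neither `H_{ℓ+1}^r` nor `M_{s+1}^r`. -/
noncomputable def freeGraphs (n ℓ s r : ℕ) : Finset (Finset (Finset (Fin n))) :=
  Finset.univ.filter (fun E => IsUniform r E ∧ ¬ Contains E (expandedClique (ℓ + 1) r) ∧
    ¬ Contains E (matchingGraph (s + 1) r))

/-- `ex_r(n, {H_{ℓ+1}^r, M_{s+1}^r})`. -/
noncomputable def exNumber (n ℓ s r : ℕ) : ℕ :=
  (freeGraphs n ℓ s r).sup Finset.card

/-- The generalized Turán graph `T_k(m, q)`: the parts are the residue classes modulo `q`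
(their sizes are `⌊m/q⌋` or `⌈m/q⌉`), the edges the `k`-subsets of `Fin m` meeting each part in at
most one vertex. -/
def turanGraph (k m q : ℕ) : Finset (Finset (Fin m)) :=
  ((Finset.univ : Finset (Fin m)).powersetCard k).filter
    (fun S => ∀ x ∈ S, ∀ y ∈ S, x ≠ y → (x : ℕ) % q ≠ (y : ℕ) % q)

/-- All `r`-sets meeting `{x | x < a}` in exactly one vertex. -/
def starGraph (n a r : ℕ) : Finset (Finset (Fin n)) :=
  ((Finset.univ : Finset (Fin n)).powersetCard r).filter
    (fun e : Finset (Fin n) => (e.filter (fun x : Fin n => (x : ℕ) < a)).card = 1)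

lemma starGraph_uniform (n a r : ℕ) : IsUniform r (starGraph n a r) := by
  intro e he
  simp only [starGraph, mem_filter, mem_powersetCard] at he
  exact he.1.2

lemma mem_starGraph_unique {n a r : ℕ} {e : Finset (Fin n)} (he : e ∈ starGraph n a r)
    {x y : Fin n} (hx : x ∈ e) (hy : y ∈ e) (hxa : (x : ℕ) < a) (hya : (y : ℕ) < a) : x = y := by
  simp only [starGraph, mem_filter, mem_powersetCard] at he
  have h := Finset.card_le_one.mp he.2.le
  exact h x (by simp [hx, hxa]) y (by simp [hy, hya])

lemma mem_starGraph_exists {n a r : ℕ} {e : Finset (Fin n)} (he : e ∈ starGraph n a r) :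
    ∃ x ∈ e, (x : ℕ) < a := by
  simp only [starGraph, mem_filter, mem_powersetCard] at he
  have h : (e.filter (fun x : Fin n => (x : ℕ) < a)).Nonempty := by
    rw [← Finset.card_pos, he.2]; exact Nat.one_pos
  obtain ⟨x, hx⟩ := h
  simp only [mem_filter] at hx
  exact ⟨x, hx.1, hx.2⟩

/-- an injective map into the `x < a` of `Fin n` has a domain with at most `a` elements -/
lemma card_le_of_inj {n a : ℕ} {α : Type} [Fintype α] (f : α → Fin n)
    (hf : Function.Injective f) (ha : ∀ x, (f x : ℕ) < a) : Fintype.card α ≤ a := by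
  have h : Function.Injective (fun x => (⟨(f x : ℕ), ha x⟩ : Fin a)) := by
    intro x y hxy
    apply hf
    simp only [Fin.mk.injEq] at hxy
    exact Fin.ext hxy
  simpa using Fintype.card_le_of_injective _ h

lemma matching_free {n a s r : ℕ} (has : a ≤ s) :
    ¬ Contains (starGraph n a r) (matchingGraph (s + 1) r) := by
  rintro ⟨φ, hφ⟩
  have h1 : ∀ i : Fin (s + 1), ∃ j : Fin r, (φ (i, j) : ℕ) < a := by
    intro i
    have hi := hφ (Finset.univ.image (fun j : Fin r => (i, j)))
      (by simp only [matchingGraph, mem_image, mem_univ, true_and]; exact ⟨i, rfl⟩)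
    obtain ⟨x, hx, hxa⟩ := mem_starGraph_exists hi
    simp only [mem_map, mem_image, mem_univ, true_and] at hx
    obtain ⟨_, ⟨j, rfl⟩, rfl⟩ := hx
    exact ⟨j, hxa⟩
  choose f hf using h1
  have h2 := card_le_of_inj (fun i => φ (i, f i)) (by
    intro i j hij
    have := φ.injective hij
    simp only [Prod.mk.injEq] at this
    exact this.1) hf
  simp only [Fintype.card_fin] at h2
  omega

/-- the number of pairs of `Fin (ℓ+1)` avoiding a given element -/
lemma card_pairs_avoiding (ℓ : ℕ) (c : Fin (ℓ + 1)) :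
    ℓ.choose 2 ≤ Fintype.card {p : KPair (ℓ + 1) // p.1.1 ≠ c ∧ p.1.2 ≠ c} := by
  classical
  -- inject the 2-subsets of `Fin ℓ`
  have h1 : (((Finset.univ : Finset (Fin ℓ)).powersetCard 2)).card = ℓ.choose 2 := by simp
  rw [← h1, ← Fintype.card_coe]
  have h2 : ∀ S : ((Finset.univ : Finset (Fin ℓ)).powersetCard 2),
      ∃ p : {p : KPair (ℓ + 1) // p.1.1 ≠ c ∧ p.1.2 ≠ c},
        S.1.image c.succAbove = {p.1.1.1, p.1.1.2} := by
    rintro ⟨S, hS⟩
    simp only [mem_powersetCard, subset_univ, true_and] at hS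
    obtain ⟨x, y, hxy, rfl⟩ := Finset.card_eq_two.mp hS
    rcases lt_or_gt_of_ne hxy with h | h
    · refine ⟨⟨⟨(c.succAbove x, c.succAbove y), ?_⟩, ?_, ?_⟩, ?_⟩
      · simpa using h
      · exact Fin.succAbove_ne c x
      · exact Fin.succAbove_ne c y
      · simp [Finset.image_insert]
    · refine ⟨⟨⟨(c.succAbove y, c.succAbove x), ?_⟩, ?_, ?_⟩, ?_⟩
      · simpa using h
      · exact Fin.succAbove_ne c y
      · exact Fin.succAbove_ne c x
      · simp [Finset.image_insert, Finset.pair_comm]
  choose f hf using h2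
  refine Fintype.card_le_of_injective f ?_
  intro S T hST
  have hS := hf S
  have hT := hf T
  rw [hST, ← hT] at hS
  exact Subtype.ext (Finset.image_injective (Fin.succAbove_right_injective) hS)

lemma clique_free {n ℓ r : ℕ} (hl : 1 ≤ ℓ) :
    ¬ Contains (starGraph n (ℓ.choose 2) r) (expandedClique (ℓ + 1) r) := by
  classical
  rintro ⟨φ, hφ⟩
  set a := ℓ.choose 2 with ha
  have hedge : ∀ p : KPair (ℓ + 1), (expandedEdge (ℓ + 1) r p).map φ ∈ starGraph n a r := by
    intro p
    apply hφ
    simp only [expandedClique, mem_image, mem_univ, true_and]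
    exact ⟨p, rfl⟩
  have hcore1 : ∀ p : KPair (ℓ + 1), φ (Sum.inl p.1.1) ∈ (expandedEdge (ℓ + 1) r p).map φ := by
    intro p
    simp [expandedEdge]
  have hcore2 : ∀ p : KPair (ℓ + 1), φ (Sum.inl p.1.2) ∈ (expandedEdge (ℓ + 1) r p).map φ := by
    intro p
    simp [expandedEdge]
  -- at most one core vertex is mapped below `a`
  have huniq : ∀ c d : Fin (ℓ + 1), (φ (Sum.inl c) : ℕ) < a → (φ (Sum.inl d) : ℕ) < a → c = d := by
    intro c d hc hd
    rcases lt_trichotomy c d with h | h | h
    · have := mem_starGraph_unique (hedge ⟨(c, d), h⟩) (hcore1 ⟨(c, d), h⟩) (hcore2 ⟨(c, d), h⟩) hc hd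
      have := φ.injective this
      simpa using this
    · exact h
    · have := mem_starGraph_unique (hedge ⟨(d, c), h⟩) (hcore1 ⟨(d, c), h⟩) (hcore2 ⟨(d, c), h⟩) hd hc
      have := φ.injective this
      simpa using this.symm
  -- choose a core vertex `c` such that all other core vertices are mapped to values `≥ a`
  obtain ⟨c, hc⟩ : ∃ c : Fin (ℓ + 1), ∀ d, (φ (Sum.inl d) : ℕ) < a → d = c := by
    by_cases h : ∃ c, (φ (Sum.inl c) : ℕ) < a
    · obtain ⟨c, hc⟩ := h
      exact ⟨c, fun d hd => huniq d c hd hc⟩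
    · push Not at h
      exact ⟨0, fun d hd => absurd hd (not_lt.mpr (h d))⟩
  -- the edges whose pair avoids `c` have an expansion vertex mapped below `a`
  have hexp : ∀ p : {p : KPair (ℓ + 1) // p.1.1 ≠ c ∧ p.1.2 ≠ c},
      ∃ i : Fin (r - 2), (φ (Sum.inr (p.1, i)) : ℕ) < a := by
    rintro ⟨p, hp1, hp2⟩
    obtain ⟨x, hx, hxa⟩ := mem_starGraph_exists (hedge p)
    simp only [expandedEdge, mem_map, mem_union, mem_insert, mem_singleton, mem_image, mem_univ,
      true_and] at hx
    obtain ⟨w, hw, rfl⟩ := hx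
    rcases hw with (rfl | rfl) | ⟨i, rfl⟩
    · exact absurd (hc _ hxa) hp1
    · exact absurd (hc _ hxa) hp2
    · exact ⟨i, hxa⟩
  choose f hf using hexp
  -- one further vertex mapped below `a`, on an edge whose pair contains `c`
  obtain ⟨p₀, hp₀⟩ : ∃ p : KPair (ℓ + 1), p.1.1 = c ∨ p.1.2 = c := by
    by_cases h : c = 0
    · exact ⟨⟨(0, Fin.last ℓ), by
        rw [Fin.lt_def]; simp; omega⟩, Or.inl h.symm⟩
    · exact ⟨⟨(0, c), Fin.pos_of_ne_zero h⟩, Or.inr rfl⟩
  obtain ⟨w₀, hw₀, hw₀a⟩ : ∃ w : HVert (ℓ + 1) r,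
      (∀ p : {p : KPair (ℓ + 1) // p.1.1 ≠ c ∧ p.1.2 ≠ c}, w ≠ Sum.inr (p.1, f p)) ∧
        (φ w : ℕ) < a := by
    obtain ⟨x, hx, hxa⟩ := mem_starGraph_exists (hedge p₀)
    simp only [expandedEdge, mem_map, mem_union, mem_insert, mem_singleton, mem_image, mem_univ,
      true_and] at hx
    obtain ⟨w, hw, rfl⟩ := hx
    refine ⟨w, ?_, hxa⟩
    rintro ⟨p, hp1, hp2⟩ h
    rcases hw with (rfl | rfl) | ⟨i, rfl⟩
    · simp at h
    · simp at h
    · simp only [Sum.inr.injEq, Prod.mk.injEq] at h
      obtain ⟨h, -⟩ := h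
      subst h
      rcases hp₀ with h' | h'
      · exact hp1 h'
      · exact hp2 h'
  have hcard := card_le_of_inj (a := a)
    (fun o : Option {p : KPair (ℓ + 1) // p.1.1 ≠ c ∧ p.1.2 ≠ c} =>
      φ (o.elim w₀ (fun p => Sum.inr (p.1, f p)))) (by
    intro o o' hoo
    have h := φ.injective hoo
    rcases o with _ | p <;> rcases o' with _ | p'
    · rfl
    · exact absurd h (hw₀ p')
    · exact absurd h.symm (hw₀ p)
    · simp only [Option.elim_some, Sum.inr.injEq, Prod.mk.injEq] at h
      exact congrArg some (Subtype.ext h.1)) (by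
    intro o
    rcases o with _ | p
    · exact hw₀a
    · exact hf p)
  rw [Fintype.card_option] at hcard
  have := card_pairs_avoiding ℓ c
  omega

/-- the number of edges of the star graph -/
lemma card_starGraph {n a r : ℕ} (han : a ≤ n) (hr : 1 ≤ r) :
    a * (n - a).choose (r - 1) ≤ (starGraph n a r).card := by
  classical
  set A : Finset (Fin n) := Finset.univ.filter (fun x : Fin n => (x : ℕ) < a) with hA
  set B : Finset (Fin n) := Finset.univ.filter (fun x : Fin n => ¬ (x : ℕ) < a) with hB
  have hAcard : A.card = a := by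
    rw [hA]
    rw [Fin.card_filter_val_lt]
    exact min_eq_right han
  have hBcard : B.card = n - a := by
    have h := Finset.card_filter_add_card_filter_not (s := (Finset.univ : Finset (Fin n)))
      (fun x : Fin n => (x : ℕ) < a)
    rw [← hA, ← hB, hAcard, Finset.card_univ, Fintype.card_fin] at h
    omega
  have h1 : ((A ×ˢ B.powersetCard (r - 1)).image (fun p => insert p.1 p.2)) ⊆ starGraph n a r := by
    intro e he
    simp only [mem_image, mem_product, mem_powersetCard, Prod.exists] at he
    obtain ⟨x, S, ⟨hx, hS, hSc⟩, rfl⟩ := he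
    have hxa : (x : ℕ) < a := by simpa [hA] using hx
    have hSa : ∀ y ∈ S, ¬ (y : ℕ) < a := by
      intro y hy
      have := hS hy
      simpa [hB] using this
    have hxS : x ∉ S := fun h => hSa x h hxa
    simp only [starGraph, mem_filter, mem_powersetCard, subset_univ, true_and]
    constructor
    · rw [Finset.card_insert_of_notMem hxS, hSc]; omega
    · rw [Finset.filter_insert, if_pos hxa, Finset.filter_false_of_mem hSa]
      simp
  have h2 : ((A ×ˢ B.powersetCard (r - 1)).image (fun p => insert p.1 p.2)).card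
      = a * (n - a).choose (r - 1) := by
    rw [Finset.card_image_of_injOn]
    · rw [Finset.card_product, Finset.card_powersetCard, hAcard, hBcard]
    · rintro ⟨x, S⟩ h ⟨y, T⟩ h' heq
      simp only [coe_product, Set.mem_prod, mem_coe, mem_powersetCard] at h h'
      obtain ⟨hx, hS, -⟩ := h
      obtain ⟨hy, hT, -⟩ := h'
      have hxa : (x : ℕ) < a := by simpa [hA] using hx
      have hya : (y : ℕ) < a := by simpa [hA] using hy
      have hSa : ∀ z ∈ S, ¬ (z : ℕ) < a := by
        intro z hz
        have := hS hz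
        simpa [hB] using this
      have hTa : ∀ z ∈ T, ¬ (z : ℕ) < a := by
        intro z hz
        have := hT hz
        simpa [hB] using this
      simp only at heq
      have e1 := congrArg (Finset.filter (fun x : Fin n => (x : ℕ) < a)) heq
      rw [Finset.filter_insert, if_pos hxa, Finset.filter_false_of_mem hSa,
        Finset.filter_insert, if_pos hya, Finset.filter_false_of_mem hTa] at e1
      have e2 := congrArg (Finset.filter (fun x : Fin n => ¬ (x : ℕ) < a)) heq
      rw [Finset.filter_insert, if_neg (not_not.mpr hxa), Finset.filter_true_of_mem hSa,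
        Finset.filter_insert, if_neg (not_not.mpr hya), Finset.filter_true_of_mem hTa] at e2
      simp at e1
      rw [e1, e2]
  rw [← h2]
  exact Finset.card_le_card h1

/-- every residue class modulo `q` has at least `⌊m/q⌋` elements in `Fin m` -/
lemma class_card {m q i : ℕ} (hi : i < q) :
    m / q ≤ ((Finset.univ : Finset (Fin m)).filter (fun x : Fin m => (x : ℕ) % q = i)).card := by
  have h : ∀ j : Fin (m / q), (j : ℕ) * q + i < m := by
    intro j
    have := j.2
    have h1 : ((j : ℕ) + 1) * q ≤ m :=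
      le_trans (Nat.mul_le_mul_right q this) (Nat.div_mul_le_self m q)
    nlinarith
  calc m / q = (Finset.univ : Finset (Fin (m / q))).card := by simp
  _ = (Finset.univ.image (fun j : Fin (m / q) => (⟨(j : ℕ) * q + i, h j⟩ : Fin m))).card := by
    rw [Finset.card_image_of_injective]
    intro j j' hjj
    simp only [Fin.mk.injEq, Nat.add_right_cancel_iff] at hjj
    exact Fin.ext (Nat.eq_of_mul_eq_mul_right (by omega) hjj)
  _ ≤ _ := by
    apply Finset.card_le_card
    intro x hx
    simp only [mem_image, mem_univ, true_and, mem_filter] at hx ⊢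
    obtain ⟨j, rfl⟩ := hx
    simp [Nat.mod_eq_of_lt hi]

lemma mem_turanGraph {k m q : ℕ} {S : Finset (Fin m)} : S ∈ turanGraph k m q ↔
    S.card = k ∧ ∀ x ∈ S, ∀ y ∈ S, x ≠ y → (x : ℕ) % q ≠ (y : ℕ) % q := by
  simp [turanGraph]

lemma turan_step {k m q : ℕ} (hq : 0 < q) :
    (turanGraph (k + 1) m q).card * (k + 1) ≤ (turanGraph k m q).card * (m - k * (m / q)) := by
  classical
  refine Finset.card_mul_le_card_mul (fun (T S : Finset (Fin m)) => S ⊆ T) ?_ ?_
  · intro T hT
    rw [mem_turanGraph] at hT
    have h1 : T.image (fun x => T.erase x) ⊆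
        (turanGraph k m q).bipartiteAbove (fun (T S : Finset (Fin m)) => S ⊆ T) T := by
      intro S hS
      simp only [mem_image] at hS
      obtain ⟨x, hx, rfl⟩ := hS
      simp only [Finset.mem_bipartiteAbove, mem_turanGraph]
      refine ⟨⟨?_, ?_⟩, Finset.erase_subset _ _⟩
      · rw [Finset.card_erase_of_mem hx, hT.1]; rfl
      · intro y hy z hz hyz
        exact hT.2 y (Finset.mem_of_mem_erase hy) z (Finset.mem_of_mem_erase hz) hyz
    have h2 : (T.image (fun x => T.erase x)).card = k + 1 := by
      rw [Finset.card_image_of_injOn, hT.1]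
      intro x hx y hy hxy
      exact (Finset.erase_inj T hx).mp hxy
    rw [← h2]
    exact Finset.card_le_card h1
  · intro S hS
    rw [mem_turanGraph] at hS
    have h1 : (turanGraph (k + 1) m q).bipartiteBelow (fun (T S : Finset (Fin m)) => S ⊆ T) S ⊆
        (Finset.univ \ (S.biUnion (fun y => Finset.univ.filter
          (fun x : Fin m => (x : ℕ) % q = (y : ℕ) % q)))).image (fun x => insert x S) := by
      intro T hT
      simp only [Finset.mem_bipartiteBelow, mem_turanGraph] at hT
      obtain ⟨⟨hTc, hT⟩, hST⟩ := hT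
      have h3 : (T \ S).card = 1 := by
        rw [Finset.card_sdiff_of_subset hST, hTc, hS.1]; omega
      obtain ⟨x, hx⟩ := Finset.card_eq_one.mp h3
      have hxT : x ∈ T \ S := by rw [hx]; simp
      rw [Finset.mem_sdiff] at hxT
      simp only [mem_image, mem_sdiff, mem_univ, true_and, mem_biUnion, mem_filter, not_exists,
        not_and]
      refine ⟨x, ?_, ?_⟩
      · intro y hy
        exact hT x hxT.1 y (hST hy) (by rintro rfl; exact hxT.2 hy)
      · rw [← Finset.sdiff_union_of_subset hST, hx]
        rfl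
    refine le_trans (Finset.card_le_card h1) (le_trans Finset.card_image_le ?_)
    rw [Finset.card_sdiff_of_subset (Finset.subset_univ _), Finset.card_univ, Fintype.card_fin]
    have h4 : k * (m / q) ≤ (S.biUnion (fun y => Finset.univ.filter
          (fun x : Fin m => (x : ℕ) % q = (y : ℕ) % q))).card := by
      rw [Finset.card_biUnion]
      · rw [← hS.1, ← smul_eq_mul]
        exact Finset.card_nsmul_le_sum _ _ _ (fun y _ => class_card (Nat.mod_lt _ hq))
      · intro y hy z hz hyz
        rw [Function.onFun, Finset.disjoint_left]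
        intro x hx hx'
        simp only [mem_filter, mem_univ, true_and] at hx hx'
        exact hS.2 y hy z hz hyz (hx.symm.trans hx')
    omega

lemma turan_bound {k m q : ℕ} (hkq : k ≤ q) (hq : 0 < q) :
    q ^ k * (k.factorial * (turanGraph k m q).card) ≤
      ∏ i ∈ Finset.range k, ((q - i) * m + i * (q - 1)) := by
  induction k with
  | zero =>
    have : (turanGraph 0 m q).card ≤ 1 := by
      refine Finset.card_le_one.mpr ?_
      intro S hS T hT
      rw [mem_turanGraph, Finset.card_eq_zero] at hS hT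
      rw [hS.1, hT.1]
    simpa using this
  | succ k ih =>
    have ih := ih (by omega)
    rw [Finset.prod_range_succ]
    have h1 := turan_step (k := k) (m := m) hq
    have h2 : q * (m - k * (m / q)) ≤ (q - k) * m + k * (q - 1) := by
      obtain ⟨j, rfl⟩ : ∃ j, q = k + j := ⟨q - k, by omega⟩
      have h3 := Nat.div_add_mod m (k + j)
      have h4 : m % (k + j) ≤ k + j - 1 := by
        have := Nat.mod_lt m hq
        omega
      set d := m / (k + j) with hd
      set e := m % (k + j) with he
      have h5 : m - k * d = j * d + e := by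
        rw [← h3, add_mul]; omega
      rw [h5, Nat.add_sub_cancel_left]
      have h6 : k * e ≤ k * (k + j - 1) := Nat.mul_le_mul_left k h4
      calc (k + j) * (j * d + e) = j * ((k + j) * d + e) + k * e := by ring
      _ ≤ j * m + k * (k + j - 1) := by rw [h3]; omega
    calc q ^ (k + 1) * ((k + 1).factorial * (turanGraph (k + 1) m q).card)
        = q ^ k * k.factorial * q * ((turanGraph (k + 1) m q).card * (k + 1)) := by
          rw [Nat.factorial_succ]; ring
    _ ≤ q ^ k * k.factorial * q * ((turanGraph k m q).card * (m - k * (m / q))) :=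
          Nat.mul_le_mul_left _ h1
    _ = (q ^ k * (k.factorial * (turanGraph k m q).card)) * (q * (m - k * (m / q))) := by ring
    _ ≤ _ := Nat.mul_le_mul ih h2

/-- if `A < B` then `A (X + c)^k < B X^k` for all large `X` -/
lemma strict_case {A B : ℕ} (k c : ℕ) (h : A < B) :
    ∃ N, ∀ X ≥ N, A * (X + c) ^ k < B * X ^ k := by
  have h1 : Filter.Tendsto (fun X : ℕ => (1 + (c : ℝ) / (X : ℝ))) Filter.atTop (nhds 1) := by
    have := (tendsto_const_div_atTop_nhds_zero_nat (c : ℝ)).const_add 1
    simpa using this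
  have h2 : Filter.Tendsto (fun X : ℕ => (A : ℝ) * (1 + (c : ℝ) / (X : ℝ)) ^ k) Filter.atTop
      (nhds (A : ℝ)) := by
    have := (h1.pow k).const_mul (A : ℝ)
    simpa using this
  have h3 : ∀ᶠ X : ℕ in Filter.atTop, (A : ℝ) * (1 + (c : ℝ) / (X : ℝ)) ^ k < (B : ℝ) :=
    h2.eventually_lt_const (by exact_mod_cast h)
  obtain ⟨N, hN⟩ := (h3.and (Filter.eventually_gt_atTop 0)).exists_forall_of_atTop
  refine ⟨N, fun X hX => ?_⟩
  obtain ⟨h4, h5⟩ := hN X hX
  have h6 : (0 : ℝ) < (X : ℝ) := by exact_mod_cast h5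
  have h7 : (A : ℝ) * ((X : ℝ) + c) ^ k < (B : ℝ) * (X : ℝ) ^ k := by
    have h8 : ((X : ℝ) + c) = (1 + (c : ℝ) / (X : ℝ)) * X := by
      field_simp
    rw [h8, mul_pow, ← mul_assoc]
    exact mul_lt_mul_of_pos_right h4 (pow_pos h6 k)
  exact_mod_cast h7

/-- the arithmetic comparison behind the disproof -/
lemma compare {q k s k0 : ℕ} (hk : 2 ≤ k) (hkq : k ≤ q) (hk0 : 2 * k0 = q * (q + 1))
    (hs : s * q.descFactorial k ≤ k0 * q ^ k) :
    ∃ N, ∀ n ≥ N, s * ∏ i ∈ Finset.range k, ((q - i) * (n - s) + i * (q - 1)) <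
      k0 * q ^ k * (n - k0).descFactorial k := by
  rcases hs.lt_or_eq with hlt | heq
  · obtain ⟨N, hN⟩ := strict_case k (k0 + k + q ^ 2) hlt
    refine ⟨N + k0 + k, fun n hn => ?_⟩
    have h1 := hN (n - k0 - k) (by omega)
    have h2 : n - k0 - k + (k0 + k + q ^ 2) = n + q ^ 2 := by omega
    rw [h2] at h1
    have h3 : ∏ i ∈ Finset.range k, ((q - i) * (n - s) + i * (q - 1)) ≤
        q.descFactorial k * (n + q ^ 2) ^ k := by
      rw [Nat.descFactorial_eq_prod_range, ← Finset.card_range k, ← Finset.prod_const,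
        Finset.card_range, ← Finset.prod_mul_distrib]
      refine Finset.prod_le_prod' (fun i hi => ?_)
      rw [Finset.mem_range] at hi
      have h4 : 1 ≤ q - i := by omega
      have h5 : i * (q - 1) ≤ q ^ 2 := by
        rw [pow_two]; exact Nat.mul_le_mul (by omega) (by omega)
      calc (q - i) * (n - s) + i * (q - 1) ≤ (q - i) * n + 1 * q ^ 2 := by
            have : (q - i) * (n - s) ≤ (q - i) * n := Nat.mul_le_mul_left _ (by omega)
            omega
      _ ≤ (q - i) * n + (q - i) * q ^ 2 := by
            have := Nat.mul_le_mul_right (q ^ 2) h4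
            omega
      _ = (q - i) * (n + q ^ 2) := by ring
    have h6 : (n - k0 - k) ^ k ≤ (n - k0).descFactorial k := by
      refine le_trans (Nat.pow_le_pow_left ?_ k) (Nat.pow_sub_le_descFactorial (n - k0) k)
      omega
    calc s * ∏ i ∈ Finset.range k, ((q - i) * (n - s) + i * (q - 1))
        ≤ s * (q.descFactorial k * (n + q ^ 2) ^ k) := Nat.mul_le_mul_left _ h3
    _ = s * q.descFactorial k * (n + q ^ 2) ^ k := by ring
    _ < k0 * q ^ k * (n - k0 - k) ^ k := h1
    _ ≤ _ := Nat.mul_le_mul_left _ h6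
  · -- the boundary case
    have hq0 : 0 < q := by omega
    have hk0pos : 0 < k0 := by
      have : 0 < q * (q + 1) := by positivity
      omega
    have hdesc : ∀ i < k, q.descFactorial k ≤ (q - i) * q ^ (k - 1) := by
      intro i hi
      rw [Nat.descFactorial_eq_prod_range, ← Finset.mul_prod_erase _ _ (Finset.mem_range.mpr hi)]
      refine Nat.mul_le_mul_left _ ?_
      calc ∏ x ∈ (Finset.range k).erase i, (q - x) ≤ ∏ x ∈ (Finset.range k).erase i, q :=
            Finset.prod_le_prod' (fun x _ => Nat.sub_le q x)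
      _ = q ^ (k - 1) := by
            rw [Finset.prod_const, Finset.card_erase_of_mem (Finset.mem_range.mpr hi),
              Finset.card_range]
    have hsi : ∀ i < k, k0 * q ≤ s * (q - i) := by
      intro i hi
      have h1 := Nat.mul_le_mul_left s (hdesc i hi)
      rw [heq] at h1
      have h2 : k0 * q * q ^ (k - 1) ≤ s * (q - i) * q ^ (k - 1) := by
        calc k0 * q * q ^ (k - 1) = k0 * q ^ k := by
              rw [mul_assoc, ← pow_succ']; congr 2; omega
        _ ≤ _ := h1
        _ = _ := by ring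
      exact Nat.le_of_mul_le_mul_right h2 (by positivity)
    have hs_gt : k0 < s := by
      have h1 := hsi 1 (by omega)
      by_contra h
      push Not at h
      have h2 : s * (q - 1) ≤ k0 * (q - 1) := Nat.mul_le_mul_right _ h
      have h3 : k0 * (q - 1) < k0 * q := Nat.mul_lt_mul_of_pos_left (by omega) hk0pos
      omega
    refine ⟨s + k + 1, fun n hn => ?_⟩
    have hfac : ∀ i < k, (q - i) * (n - s) + i * (q - 1) ≤ (q - i) * (n - k0 - i) := by
      intro i hi
      have h1 := hsi i hi
      -- `(q - i) (s - k0 - i) ≥ i (q - 1)`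
      obtain ⟨j, hj⟩ : ∃ j, q = i + j := ⟨q - i, by omega⟩
      have hj1 : 1 ≤ j := by omega
      have hqi : q - i = j := by omega
      rw [hqi] at h1 ⊢
      obtain ⟨t, ht⟩ : ∃ t, s = k0 + t := ⟨s - k0, by omega⟩
      obtain ⟨N, hN⟩ : ∃ N, n = s + N := ⟨n - s, by omega⟩
      obtain ⟨q', hq'⟩ : ∃ q', q = q' + 1 := ⟨q - 1, by omega⟩
      have h2 : k0 * i ≤ t * j := by
        have : k0 * (i + j) ≤ (k0 + t) * j := by rw [← hj, ← ht]; exact h1
        nlinarith
      have h3 : i * j + i * (q - 1) ≤ t * j := by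
        refine le_trans ?_ h2
        rcases Nat.eq_zero_or_pos i with rfl | hi0
        · simp
        · have h4 : j + (q - 1) ≤ k0 := by
            have h5 : 2 * (j + (q - 1)) ≤ q * (q + 1) := by
              have : j ≤ q' := by omega
              rw [hq', Nat.add_sub_cancel]
              have hq2 : 2 ≤ q := by omega
              have hq2' : 1 ≤ q' := by omega
              nlinarith
            omega
          calc i * j + i * (q - 1) = i * (j + (q - 1)) := by ring
          _ ≤ i * k0 := Nat.mul_le_mul_left _ h4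
          _ = k0 * i := by ring
      have h6 : n - s = N := by omega
      have h7 : i ≤ t := by
        have h8 : i * j ≤ t * j := by omega
        exact Nat.le_of_mul_le_mul_right h8 (by omega)
      have h9 : n - k0 - i = (t - i) + N := by omega
      rw [h6, h9]
      have h10 : j * ((t - i) + N) + i * j = j * t + j * N := by
        obtain ⟨u, hu⟩ : ∃ u, t = i + u := ⟨t - i, by omega⟩
        rw [hu, Nat.add_sub_cancel_left]; ring
      nlinarith
    have hprod : ∏ i ∈ Finset.range k, ((q - i) * (n - s) + i * (q - 1)) <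
        ∏ i ∈ Finset.range k, ((q - i) * (n - k0 - i)) := by
      refine Finset.prod_lt_prod (fun i hi => ?_) (fun i hi => hfac i (Finset.mem_range.mp hi))
        ⟨0, Finset.mem_range.mpr (by omega), ?_⟩
      · rw [Finset.mem_range] at hi
        have : 0 < (q - i) * (n - s) := Nat.mul_pos (by omega) (by omega)
        omega
      · simp only [Nat.sub_zero, Nat.zero_mul, Nat.add_zero]
        exact Nat.mul_lt_mul_of_pos_left (by omega) hq0
    calc s * ∏ i ∈ Finset.range k, ((q - i) * (n - s) + i * (q - 1))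
        < s * ∏ i ∈ Finset.range k, ((q - i) * (n - k0 - i)) :=
          Nat.mul_lt_mul_of_pos_left hprod (by omega)
    _ = s * q.descFactorial k * (n - k0).descFactorial k := by
          rw [Finset.prod_mul_distrib, Nat.descFactorial_eq_prod_range,
            Nat.descFactorial_eq_prod_range]
          ring
    _ = _ := by rw [heq]

/-- **Disproof of Q1.** For all `ℓ ≥ r ≥ 3` and all `s ≥ C(ℓ, 2)` such that `s = C(ℓ, 2)` or, more
generally, `s ≤ C(ℓ, 2) (ℓ-1)^(r-1) / ((ℓ-1)(ℓ-2)⋯(ℓ-r+1))`, the number
`ex_r(n, {H_{ℓ+1}^r, M_{s+1}^r})` is larger than `s t_{r-1}(n-s, ℓ-1)` for all large `n`.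

The construction: all `r`-sets meeting a fixed set of `C(ℓ, 2)` vertices in exactly one vertex. -/
theorem result (ℓ r s : ℕ) (hr : 3 ≤ r) (hrl : r ≤ ℓ) (hs : ℓ.choose 2 ≤ s)
    (hs' : s = ℓ.choose 2 ∨
      s * (ℓ - 1).descFactorial (r - 1) ≤ ℓ.choose 2 * (ℓ - 1) ^ (r - 1)) :
    ∃ n₀ : ℕ, ∀ n ≥ n₀,
      s * (turanGraph (r - 1) (n - s) (ℓ - 1)).card < exNumber n ℓ s r := by
  classical
  obtain ⟨q, rfl⟩ : ∃ q, ℓ = q + 1 := ⟨ℓ - 1, by omega⟩
  obtain ⟨k, rfl⟩ : ∃ k, r = k + 1 := ⟨r - 1, by omega⟩
  simp only [Nat.add_sub_cancel] at hs' ⊢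
  have hk : 2 ≤ k := by omega
  have hkq : k ≤ q := by omega
  have hk0 : 2 * (q + 1).choose 2 = q * (q + 1) := by
    rw [Nat.choose_two_right, Nat.add_sub_cancel, Nat.mul_comm (q + 1) q]
    exact Nat.mul_div_cancel' (Nat.even_mul_succ_self q).two_dvd
  have hs2 : s * q.descFactorial k ≤ (q + 1).choose 2 * q ^ k := by
    rcases hs' with rfl | h
    · exact Nat.mul_le_mul_left _ (Nat.descFactorial_le_pow q k)
    · exact h
  obtain ⟨N, hN⟩ := compare hk hkq hk0 hs2
  refine ⟨N + (q + 1).choose 2, fun n hn => ?_⟩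
  have h1 := hN n (by omega)
  have h2 := turan_bound (k := k) (m := n - s) hkq (by omega : 0 < q)
  have h3 : s * (turanGraph k (n - s) q).card <
      (q + 1).choose 2 * (n - (q + 1).choose 2).choose k := by
    have h4 : q ^ k * k.factorial * (s * (turanGraph k (n - s) q).card) <
        q ^ k * k.factorial * ((q + 1).choose 2 * (n - (q + 1).choose 2).choose k) := by
      calc q ^ k * k.factorial * (s * (turanGraph k (n - s) q).card)
          = s * (q ^ k * (k.factorial * (turanGraph k (n - s) q).card)) := by ring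
      _ ≤ s * ∏ i ∈ Finset.range k, ((q - i) * (n - s) + i * (q - 1)) :=
          Nat.mul_le_mul_left _ h2
      _ < (q + 1).choose 2 * q ^ k * (n - (q + 1).choose 2).descFactorial k := h1
      _ = _ := by rw [Nat.descFactorial_eq_factorial_mul_choose]; ring
    exact lt_of_mul_lt_mul_left h4 (Nat.zero_le _)
  refine lt_of_lt_of_le h3 ?_
  have h5 := card_starGraph (n := n) (a := (q + 1).choose 2) (r := k + 1) (by omega) (by omega)
  rw [Nat.add_sub_cancel] at h5
  refine le_trans h5 ?_
  refine Finset.le_sup (f := Finset.card) ?_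
  simp only [freeGraphs, mem_filter, mem_univ, true_and]
  exact ⟨starGraph_uniform _ _ _, clique_free (by omega), matching_free hs⟩

end Pool.Agent.Results.MP_f4e9fb_co.Disproof
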